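import Pool.Agent.D0H36.LW.Stm6

/-!
# Project LW, module RC: replacing the content of a site keeps a graph connected
-/

set_option autoImplicit false

namespace Pool.Agent.D0H74.LW

open Pool.Agent.D0H36.BL Pool.Agent.D0H36.LW

theorem reach_of {V : Type} (G : SimpleGraph V) (P : V → Prop)
    (hstep : ∀ u v, G.Adj u v → P u → P v) {r v : V} (h : G.Reachable r v) (hr : P r) : P v := by
  obtain ⟨w⟩ := h
  induction w with
  | nil => exact hr
  | cons hadj p ih => exact ih (hstep _ _ hadj hr)

/-- the version with only the size of `W` -/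
theorem repl_connected {h n : ℕ} (G : SimpleGraph (Fin n)) (W : Finset (Fin n)) (hW : W.card = h)
    (K : SimpleGraph (Fin h)) (hK : TwoEdge K) (hh : 0 < h) (hG : G.Connected) :
    (repl G W hW K).Connected := by
  obtain ⟨R, hR⟩ : ∃ R, R = repl G W hW K := ⟨_, rfl⟩
  rw [← hR]
  let en := W.orderEmbOfFin hW
  have hen : ∀ i j, K.Adj i j → R.Adj (en i) (en j) := by
    intro i j hij
    rw [hR]
    exact Or.inr ⟨i, j, rfl, rfl, hij⟩
  have hoff : ∀ u v, ¬ (u ∈ W ∧ v ∈ W) → G.Adj u v → R.Adj u v := by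
    intro u v huv hadj
    rw [hR]
    exact (repl_off G W hW K huv).mpr hadj
  let r : Fin n := en ⟨0, hh⟩
  -- all of `W` is reachable
  have hWr : ∀ i, R.Reachable r (en i) := by
    intro i
    by_contra hi
    obtain ⟨a, b, c, d, ha, hb, -, -, hab, -, -⟩ := hK {j | R.Reachable r (en j)}
      ⟨⟨0, hh⟩, SimpleGraph.Reachable.refl _⟩ ⟨i, hi⟩
    exact hb (SimpleGraph.Reachable.trans ha (hen a b hab).reachable)
  have hstep : ∀ u v, G.Adj u v → R.Reachable r u → R.Reachable r v := by
    intro u v huv hu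
    by_cases hW2 : u ∈ W ∧ v ∈ W
    · obtain ⟨i, hi⟩ := exists_en hW hW2.2
      rw [← hi]
      exact hWr i
    · exact hu.trans (hoff u v hW2 huv).reachable
  have hall : ∀ v, R.Reachable r v := fun v =>
    reach_of G (fun v => R.Reachable r v) hstep (hG.preconnected r v) (SimpleGraph.Reachable.refl _)
  haveI : Nonempty (Fin n) := ⟨r⟩
  exact ⟨fun u v => (hall u).symm.trans (hall v)⟩

theorem t_RC : S_RC := by
  intro h n T G W hs K hK hh hG
  exact repl_connected G W hs.card K hK hh hG

end Pool.Agent.D0H74.LW
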